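import Pool.Agent.Helper77.GS.Defs
import Pool.Agent.Helper16.SL.Defs

/-!
# PC (point count, helper61): definitions and interfaces

Sections of degree `d`: a form `g` of degree `d` in the coordinates `Fin (N + 1)` is given by its coefficients, indexed by the
multisets `Sym (Fin (N + 1)) d`.
-/

set_option autoImplicit false

namespace Pool.Agent.PC

open Pool.Agent.GS MvPolynomial

universe u

/-- The monomial `∏_{j ∈ s} x j`. -/
def mon {K : Type*} [CommMonoid K] {N d : ℕ} (x : Fin (N + 1) → K) (s : Sym (Fin (N + 1)) d) : K :=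
  ((s : Multiset (Fin (N + 1))).map x).prod

/-- The value of the form with coefficients `g s`. -/
def form {k K : Type u} [Field k] [Field K] [Algebra k K] {N d : ℕ} (g : Sym (Fin (N + 1)) d → k)
    (x : Fin (N + 1) → K) : K := ∑ s, algebraMap k K (g s) * mon x s

/-- The algebraic core (helper61): generic forms of degree `d`. -/
def Core (N n q r d : ℕ) : Prop :=
  ∀ (k₀ F E : Type u) [Field k₀] [CharZero k₀] [Field F] [IsAlgClosed F] [Field E] [Algebra k₀ F] [Algebra F E]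
    [Algebra k₀ E] [IsScalarTower k₀ F E] (I : Set (MvPolynomial (Fin (N + 1)) k₀)), Homog I → Dim k₀ I n →
    ∀ g : Fin q → Sym (Fin (N + 1)) d → F,
      AlgebraicIndependent k₀ (fun p : Fin q × Sym (Fin (N + 1)) d => g p.1 p.2) →
      ∀ (s0 : Fin r) (x : Fin r → Fin (N + 1) → E), (∀ σ, OnX I (x σ)) → (∀ i, ∏ σ, form (g i) (x σ) ≠ 0) →
        (∃ a b, ¬ Cst F (x s0 a / x s0 b)) → ¬ Rk F (fun i => ∏ σ, form (g i) (x σ)) 1

/-- What `glue` (helper77) gives for a failing family: almost units over slowly moving constants. -/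
structure Pack (k₀ : Type u) [Field k₀] {N q : ℕ} (r : ℕ) (I : Set (MvPolynomial (Fin (N + 1)) k₀)) : Type (u + 1) where
  K : Type u
  Ω : Type u
  [fK : Field K]
  [fΩ : Field Ω]
  [a1 : Algebra k₀ K]
  [a2 : Algebra K Ω]
  [a3 : Algebra k₀ Ω]
  [t : IsScalarTower k₀ K Ω]
  D : SL.Dat K Ω
  ℓ : Fin q → Fin (N + 1) → K
  s0 : Fin r
  X : Fin r → Fin (N + 1) → Ω
  onX : ∀ σ, OnX I (X σ)
  unit : ∀ i, D.U (uu ℓ X i)
  gen : (1 : ℕ∞) ≤ rk K (Rat (X s0))

attribute [instance] Pack.fK Pack.fΩ Pack.a1 Pack.a2 Pack.a3 Pack.t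

/-- Block (B), helper77: the ultraproduct of the packages over all nonzero `Φ`. -/
def Ultra : Prop :=
  ∀ (k₀ : Type u) [Field k₀] [CharZero k₀] (N q r : ℕ) (I : Set (MvPolynomial (Fin (N + 1)) k₀)), Homog I →
    (∀ Φ : MvPolynomial (Fin q × Fin (N + 1)) k₀, Φ ≠ 0 →
      ∃ P : Pack.{u} k₀ (N := N) (q := q) r I, aeval (fun p : Fin q × Fin (N + 1) => P.ℓ p.1 p.2) Φ ≠ 0) →
    ∃ P : Pack.{u} k₀ (N := N) (q := q) r I,
      AlgebraicIndependent k₀ (fun p : Fin q × Fin (N + 1) => P.ℓ p.1 p.2)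

end Pool.Agent.PC
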