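import Pool.Agent.Helper64.PC.Ver
import Pool.Agent.Helper64.GS.Dim

/-!
# PC: from forms of degree `d` to linear forms on the Veronese image
-/

set_option autoImplicit false

namespace Pool.Agent.PC

open Pool.Agent.GS MvPolynomial

universe u

/-- The core for linear forms on a fixed closed subset. -/
def LCore {k₀ : Type u} [Field k₀] {M : ℕ} (I : Set (MvPolynomial (Fin (M + 1)) k₀)) (q r : ℕ) : Prop :=
  ∀ (F E : Type u) [Field F] [IsAlgClosed F] [Field E] [Algebra k₀ F] [Algebra F E]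
    [Algebra k₀ E] [IsScalarTower k₀ F E] (ℓ : Fin q → Fin (M + 1) → F),
      AlgebraicIndependent k₀ (fun p : Fin q × Fin (M + 1) => ℓ p.1 p.2) →
      ∀ (s0 : Fin r) (X : Fin r → Fin (M + 1) → E), (∀ σ, OnX I (X σ)) → (∀ i, uu ℓ X i ≠ 0) →
        (∃ a b, ¬ Cst F (X s0 a / X s0 b)) → ¬ Rk F (uu ℓ X) 1

theorem Rk_scale {F E : Type u} [Field F] [Field E] [Algebra F E] {q t : ℕ} (u : Fin q → E) (A : E) (hA : A ≠ 0)
    (h : Rk F (fun i => A * u i) t) : Rk F u t := by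
  intro e he hu
  obtain ⟨a, ha, hc⟩ := h e he (fun b i h0 => hu b i (by
    rcases mul_eq_zero.1 h0 with h0 | h0
    · exact absurd h0 hA
    · exact h0))
  refine ⟨a, ha, ?_⟩
  have h1 : ∑ i, ∑ b, a b * e b i = 0 := by
    rw [Finset.sum_comm]
    refine Finset.sum_eq_zero fun b _ => ?_
    rw [← Finset.mul_sum, he, mul_zero]
  have h2 : ∏ i, (A * u i) ^ ∑ b, a b * e b i = ∏ i, u i ^ ∑ b, a b * e b i := by
    have h3 : ∀ i, (A * u i) ^ ∑ b, a b * e b i = A ^ (∑ b, a b * e b i) * u i ^ ∑ b, a b * e b i :=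
      fun i => mul_zpow _ _ _
    rw [Finset.prod_congr rfl fun i _ => h3 i, Finset.prod_mul_distrib]
    have h4 : ∏ i, A ^ (∑ b, a b * e b i) = A ^ (∑ i, ∑ b, a b * e b i) := by
      have : ∀ s : Finset (Fin q), ∏ i ∈ s, A ^ (∑ b, a b * e b i) = A ^ (∑ i ∈ s, ∑ b, a b * e b i) := by
        intro s
        induction s using Finset.cons_induction with
        | empty => simp
        | cons i s hi ih => rw [Finset.prod_cons, Finset.sum_cons, zpow_add₀ hA, ih]
      exact this _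
    rw [h4, h1, zpow_zero, one_mul]
  rw [h2] at hc
  exact hc

theorem mon_ne_zero {K : Type*} [Field K] {N d : ℕ} (x : Fin (N + 1) → K) (s : Sym (Fin (N + 1)) (d + 1))
    (h : mon x s ≠ 0) : x ≠ 0 := by
  rintro rfl
  obtain ⟨a, s', rfl⟩ := s.exists_eq_cons_of_succ
  rw [mon_cons] at h
  simp at h

/-- A set closed under products contains the monomials. -/
theorem mon_mem {K : Type*} [CommMonoid K] {N d : ℕ} (C : Set K) (h1 : (1 : K) ∈ C)
    (hm : ∀ a b, a ∈ C → b ∈ C → a * b ∈ C) (x : Fin (N + 1) → K) (hx : ∀ j, x j ∈ C) (s : Sym (Fin (N + 1)) d) :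
    mon x s ∈ C := by
  induction d with
  | zero =>
    have : mon x s = 1 := by simp [mon, Sym.eq_nil_of_card_zero s]
    rw [this]
    exact h1
  | succ d ih =>
    obtain ⟨a, s', rfl⟩ := s.exists_eq_cons_of_succ
    rw [mon_cons]
    exact hm _ _ (hx a) (ih s')

theorem mon_div {K : Type*} [Field K] {N d : ℕ} (x : Fin (N + 1) → K) (b : K) (hb : b ≠ 0)
    (s : Sym (Fin (N + 1)) d) : mon x s = b ^ d * mon (fun j => x j / b) s := by
  rw [← mon_const (N := N) b s, ← mon_mul]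
  congr 1
  funext j
  field_simp

variable {k₀ : Type u} [Field k₀] {N M c n : ℕ}

theorem dim_vI (I : Set (MvPolynomial (Fin (N + 1)) k₀)) (hD : Dim k₀ I n)
    (e : Fin (M + 1) ≃ Sym (Fin (N + 1)) (c + 1)) : Dim k₀ (vI I e) n := by
  intro K _ _ Z hZ
  by_cases hZ0 : Z = 0
  · rw [hZ0, rk_Rat_zero]
    exact bot_le
  · obtain ⟨x, a, ha, hx, hZx⟩ := onX_vI I e Z hZ hZ0
    refine (rk_le_of_subset ?_).trans (hD K x hx)
    obtain ⟨i, hi⟩ := Function.ne_iff.1 hZ0
    have hx0 : x ≠ 0 := by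
      apply mon_ne_zero x (e i)
      intro h
      rw [hZx, h, mul_zero] at hi
      exact hi rfl
    obtain ⟨j, hj⟩ := Function.ne_iff.1 hx0
    have hj : x j ≠ 0 := hj
    have hmem : ∀ s : Sym (Fin (N + 1)) (c + 1), mon (fun l => x l / x j) s ∈ cl k₀ (Rat x) := by
      intro s
      exact mon_mem (cl k₀ (Rat x)) (cl_one _) (fun a b ha hb => cl_mul ha hb) (fun l => x l / x j)
        (fun l => subset_cl (Rat x) ⟨l, j, rfl⟩) s
    rintro _ ⟨a', b', rfl⟩
    rw [hZx, hZx, mon_div x (x j) hj, mon_div x (x j) hj (e b'), mul_div_mul_left _ _ ha,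
      mul_div_mul_left _ _ (pow_ne_zero _ hj)]
    exact cl_div (hmem _) (hmem _)

theorem core_vI [CharZero k₀] {q r : ℕ} (hq : 0 < q) (hcore : Core.{u} N n q r (c + 1)) (I : Set (MvPolynomial (Fin (N + 1)) k₀))
    (hI : Homog I) (hD : Dim k₀ I n) (e : Fin (M + 1) ≃ Sym (Fin (N + 1)) (c + 1)) : LCore (vI I e) q r := by
  classical
  intro F E _ _ _ _ _ _ _ ℓ hℓ s0 X hX hu hne hrk
  have hX0 : ∀ σ, X σ ≠ 0 := by
    intro σ h0
    obtain ⟨a, b, hab⟩ := hne
    refine hu ⟨0, hq⟩ (Finset.prod_eq_zero (Finset.mem_univ σ) ?_)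
    unfold lin
    rw [h0]
    simp
  choose x a ha hx hXx using fun σ => onX_vI I e (X σ) (hX σ) (hX0 σ)
  set g : Fin q → Sym (Fin (N + 1)) (c + 1) → F := fun i s => ℓ i (e.symm s) with hg
  have hlin : ∀ i σ, lin (ℓ i) (X σ) = a σ * form (g i) (x σ) := by
    intro i σ
    unfold lin form
    rw [Finset.mul_sum, ← Equiv.sum_comp e]
    refine Finset.sum_congr rfl fun j _ => ?_
    rw [hXx]
    simp only [hg, Equiv.symm_apply_apply]
    ring
  have huu : ∀ i, uu ℓ X i = (∏ σ, a σ) * ∏ σ, form (g i) (x σ) := by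
    intro i
    unfold uu
    rw [← Finset.prod_mul_distrib]
    exact Finset.prod_congr rfl fun σ _ => hlin i σ
  have hA : ∏ σ, a σ ≠ 0 := Finset.prod_ne_zero_iff.2 fun σ _ => ha σ
  refine hcore k₀ F E I hI hD g ?_ s0 x hx (fun i h0 => hu i (by rw [huu, h0, mul_zero])) ?_ ?_
  · have h1 := hℓ.comp (fun p : Fin q × Sym (Fin (N + 1)) (c + 1) => (p.1, e.symm p.2)) (by
      intro p p' h
      rw [Prod.mk.injEq] at h
      exact Prod.ext h.1 (e.symm.injective h.2))
    exact h1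
  · by_contra hcon
    push Not at hcon
    obtain ⟨i, j, hij⟩ := hne
    refine hij ?_
    have h0 : x s0 ≠ 0 := by
      obtain ⟨i', hi'⟩ := Function.ne_iff.1 (hX0 s0)
      apply mon_ne_zero (x s0) (e i')
      intro h
      rw [hXx, h, mul_zero] at hi'
      exact hi' rfl
    obtain ⟨b, hb⟩ := Function.ne_iff.1 h0
    have hb : x s0 b ≠ 0 := hb
    have hmem : ∀ s : Sym (Fin (N + 1)) (c + 1), mon (fun l => x s0 l / x s0 b) s ∈ {z : E | Cst F z} := by
      intro s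
      refine mon_mem {z : E | Cst F z} ⟨1, (map_one _).symm⟩ ?_ (fun l => x s0 l / x s0 b) (fun l => hcon l b) s
      rintro _ _ ⟨y, rfl⟩ ⟨z, rfl⟩
      exact ⟨y * z, (map_mul _ _ _).symm⟩
    rw [hXx, hXx, mon_div (x s0) (x s0 b) hb, mon_div (x s0) (x s0 b) hb (e j), mul_div_mul_left _ _ (ha s0),
      mul_div_mul_left _ _ (pow_ne_zero _ hb)]
    obtain ⟨y, hy⟩ := hmem (e i)
    obtain ⟨z, hz⟩ := hmem (e j)
    rw [hy, hz]
    exact ⟨y / z, (map_div₀ _ _ _).symm⟩
  · refine Rk_scale _ _ hA ?_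
    have : (fun i => (∏ σ, a σ) * ∏ σ, form (g i) (x σ)) = uu ℓ X := funext fun i => (huu i).symm
    rw [this]
    exact hrk

end Pool.Agent.PC
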