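import Pool.Agent.Helper64.PC.Core
import Pool.Agent.Helper16.FIN.Chart
import Pool.Agent.Helper17.EXP.UnitsPlus

/-!
# PC: heights and Weil functions of Veronese coordinates
-/

set_option autoImplicit false

namespace Pool.Agent.PC

open NumberField IntermediateField Pool.Agent.Helper64.Vojta Pool.Agent.VZ Pool.Agent.SL

universe u

section

variable {L : Type u} [Field L] [NumberField L] {N M d : ℕ}

/-- `nv` is multiplicative -/
noncomputable def nvHom (w : Pl L) : L →* ℝ where
  toFun := nv w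
  map_one' := nv_one w
  map_mul' := nv_mul w

theorem nv_mon (w : Pl L) (x : Fin (N + 1) → L) (s : Sym (Fin (N + 1)) d) :
    nv w (mon x s) = mon (fun j => nv w (x j)) s := mon_map (nvHom w) x s

theorem mon_le (f : Fin (N + 1) → ℝ) (B : ℝ) (h0 : ∀ j, 0 ≤ f j) (h : ∀ j, f j ≤ B) (s : Sym (Fin (N + 1)) d) :
    0 ≤ mon f s ∧ mon f s ≤ B ^ d := by
  induction d with
  | zero =>
    have : mon f s = 1 := by simp [mon, Sym.eq_nil_of_card_zero s]
    rw [this]
    simp
  | succ d ih =>
    obtain ⟨a, s', rfl⟩ := s.exists_eq_cons_of_succ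
    obtain ⟨h1, h2⟩ := ih s'
    rw [mon_cons]
    refine ⟨mul_nonneg (h0 a) h1, ?_⟩
    rw [pow_succ']
    exact mul_le_mul (h a) h2 h1 ((h0 a).trans (h a))

theorem sn_mon (w : Pl L) (x : Fin (N + 1) → L) (e : Fin (M + 1) ≃ Sym (Fin (N + 1)) d) :
    sn w (fun i => mon x (e i)) = sn w x ^ d := by
  obtain ⟨j, hj⟩ := exists_eq_ciSup_of_finite (f := fun i => nv w (x i))
  have hj' : nv w (x j) = sn w x := hj
  have hsn0 : 0 ≤ sn w x := hj' ▸ nv_nonneg w _
  apply le_antisymm
  · refine sn_le w _ _ (pow_nonneg hsn0 _) fun i => ?_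
    rw [nv_mon]
    exact (mon_le _ _ (fun j => nv_nonneg w _) (fun j => le_sn w x j) _).2
  · have h1 := le_sn w (fun i => mon x (e i)) (e.symm (Sym.replicate d j))
    rw [nv_mon] at h1
    simp only [Equiv.apply_symm_apply, mon_replicate] at h1
    rwa [hj'] at h1

theorem logHeight_mon (x : Fin (N + 1) → L) (hx : x ≠ 0) (e : Fin (M + 1) ≃ Sym (Fin (N + 1)) d) :
    Height.logHeight (fun i => mon x (e i)) = d * Height.logHeight x := by
  classical
  have hx' : (fun i => mon x (e i)) ≠ 0 := by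
    obtain ⟨j, hj⟩ := Function.ne_iff.1 hx
    refine Function.ne_iff.2 ⟨e.symm (Sym.replicate d j), ?_⟩
    show mon x (e (e.symm (Sym.replicate d j))) ≠ 0
    rw [Equiv.apply_symm_apply, mon_replicate]
    exact pow_ne_zero _ hj
  have hfs : (Function.support fun w : FinitePlace L => Real.log (sn (.inr w) x)).Finite :=
    log_support _ (fin_support_sn hx)
  set W : Finset (Pl L) := Finset.univ.image Sum.inl ∪ hfs.toFinset.image Sum.inr with hW
  have h1 := Pool.Agent.Helper52.Vojta.logHeight_eq_sum hx W (by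
    intro w
    simp [hW]) (by
    intro w hw
    simp only [hW, Finset.mem_union, Finset.mem_image, Set.Finite.mem_toFinset]
    right
    exact ⟨w, hw, rfl⟩)
  have h2 := Pool.Agent.Helper52.Vojta.logHeight_eq_sum hx' W (by
    intro w
    simp [hW]) (by
    intro w hw
    simp only [hW, Finset.mem_union, Finset.mem_image, Set.Finite.mem_toFinset]
    right
    refine ⟨w, ?_, rfl⟩
    intro h0
    apply hw
    rw [sn_mon, Real.log_pow]
    have h0 : Real.log (sn (.inr w) x) = 0 := h0
    rw [h0, mul_zero])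
  rw [h1, h2, Finset.mul_sum]
  refine Finset.sum_congr rfl fun w _ => ?_
  rw [sn_mon, Real.log_pow]

end

section chart

variable {k : Type u} [Field k] [NumberField k] {N M c : ℕ}

open Pool.Agent.Chart

/-- The value of the form with coefficients `g s`. -/
noncomputable def val {d : ℕ} (g : Sym (Fin (N + 1)) d → k) (x : Fin (N + 1) → AlgebraicClosure k) : Chart.fld x :=
  ∑ s, algebraMap k (Chart.fld x) (g s) * mon (Chart.crd x) s

/-- The Weil function of the section `g = 0` at the place `ν`. -/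
noncomputable def lam {d : ℕ} (g : Sym (Fin (N + 1)) d → k) (ν : Pl k) (x : Fin (N + 1) → AlgebraicClosure k) : ℝ :=
  (∑ w ∈ above (Chart.fld x) ν, (d * Real.log (sn w (Chart.crd x)) - Real.log (nv w (val g x)))) / Chart.dg x

/-- affine Veronese coordinates -/
noncomputable def vaff (e : Fin (M + 1) ≃ Sym (Fin (N + 1)) (c + 1)) (x : Fin (N + 1) → AlgebraicClosure k) :
    Fin M → AlgebraicClosure k := fun i => mon x (e i.succ)

variable (e : Fin (M + 1) ≃ Sym (Fin (N + 1)) (c + 1)) (x : Fin (N + 1) → AlgebraicClosure k) (j : Fin (N + 1))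

theorem cons_vaff (h : x j = 1) (he : e 0 = Sym.replicate (c + 1) j) :
    (Fin.cons 1 (vaff e x) : Fin (M + 1) → AlgebraicClosure k) = fun i => mon x (e i) := by
  funext i
  refine Fin.cases ?_ (fun i => ?_) i
  · show 1 = mon x (e 0)
    rw [he, mon_replicate, h, one_pow]
  · rfl

theorem fld_vaff (h : x j = 1) (he : e 0 = Sym.replicate (c + 1) j) :
    VZ.fld (vaff e x) = Chart.fld x := by
  unfold VZ.fld Chart.fld
  apply le_antisymm
  · rw [adjoin_le_iff]
    rintro _ ⟨i, rfl⟩
    exact mon_mem (adjoin k (Set.range x) : Set (AlgebraicClosure k)) (one_mem (adjoin k (Set.range x)))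
      (fun a b ha hb => mul_mem (S := IntermediateField k (AlgebraicClosure k)) ha hb) x
      (fun j => subset_adjoin k _ (Set.mem_range_self j)) _
  · rw [adjoin_le_iff]
    rintro _ ⟨i, rfl⟩
    have h1 : x i = (Fin.cons 1 (vaff e x) : Fin (M + 1) → AlgebraicClosure k) (e.symm (i ::ₛ Sym.replicate c j)) := by
      rw [cons_vaff e x j h he]
      simp only [Equiv.apply_symm_apply, mon_cons, mon_replicate, h, one_pow, mul_one]
    rw [h1]
    refine Fin.cases ?_ (fun a => ?_) (e.symm (i ::ₛ Sym.replicate c j))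
    · exact one_mem (adjoin k _)
    · exact subset_adjoin k _ (Set.mem_range_self a)

theorem crd_vaff (h : x j = 1) (he : e 0 = Sym.replicate (c + 1) j) (i : Fin (M + 1)) :
    ((VZ.crd (vaff e x) i : VZ.fld (vaff e x)) : AlgebraicClosure k) = ((mon (Chart.crd x) (e i) : Chart.fld x) :
      AlgebraicClosure k) := by
  have h1 : ((VZ.crd (vaff e x) i : VZ.fld (vaff e x)) : AlgebraicClosure k) =
      (Fin.cons 1 (vaff e x) : Fin (M + 1) → AlgebraicClosure k) i := by
    refine Fin.cases ?_ (fun a => ?_) i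
    · rfl
    · rfl
  rw [h1, cons_vaff e x j h he]
  exact (mon_map (Chart.fld x).val (Chart.crd x) (e i)).symm

theorem dg_vaff (h : x j = 1) (he : e 0 = Sym.replicate (c + 1) j) : VZ.dg (vaff e x) = Chart.dg x := by
  unfold VZ.dg Chart.dg
  rw [fld_vaff e x j h he]

theorem crd_ne_zero (h : x j = 1) : Chart.crd x ≠ 0 := by
  intro h0
  have h1 := congrArg (fun z => (z j : AlgebraicClosure k)) h0
  have h2 : x j = 0 := h1
  rw [h] at h2
  exact one_ne_zero h2

theorem hgt_vaff (h : x j = 1) (he : e 0 = Sym.replicate (c + 1) j) :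
    VZ.hgt (vaff e x) = (c + 1 : ℕ) * Chart.hgt x := by
  have h1 : VZ.hgt (vaff e x) = H _ (VZ.crd (vaff e x)) := rfl
  rw [h1, H_congr _ _ (fld_vaff e x j h he) _ (fun i => mon (Chart.crd x) (e i)) (crd_vaff e x j h he)]
  unfold H Chart.hgt
  rw [logHeight_mon _ (crd_ne_zero x j h), mul_div_assoc]
  rfl

theorem val_vaff (h : x j = 1) (he : e 0 = Sym.replicate (c + 1) j) (g : Sym (Fin (N + 1)) (c + 1) → k) :
    ∑ i, algebraMap k (VZ.fld (vaff e x)) (g (e i)) * VZ.crd (vaff e x) i = 0 ↔ val g x = 0 := by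
  have h1 := V_congr _ _ (fld_vaff e x j h he) (g ∘ e) _ _ (crd_vaff e x j h he)
  refine h1.trans ?_
  unfold V val
  rw [← Equiv.sum_comp e]
  rfl

theorem lam_vaff {q : ℕ} (h : x j = 1) (he : e 0 = Sym.replicate (c + 1) j)
    (g : Fin q → Sym (Fin (N + 1)) (c + 1) → k) (S : Finset (Pl k)) :
    VZ.lam (fun i a => g i (e a)) S (vaff e x) = ∑ ν ∈ S, ∑ i, lam (g i) ν x := by
  have h1 : VZ.lam (fun i a => g i (e a)) S (vaff e x) =
      ∑ ν ∈ S, ∑ i, Lm _ (g i ∘ e) ν (VZ.crd (vaff e x)) := by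
    unfold VZ.lam Lm
    rw [Finset.sum_div]
    refine Finset.sum_congr rfl fun ν _ => ?_
    rw [← Finset.sum_div]
    congr 1
    rw [Finset.sum_comm]
    rfl
  rw [h1]
  refine Finset.sum_congr rfl fun ν _ => Finset.sum_congr rfl fun i _ => ?_
  rw [Lm_congr _ _ (fld_vaff e x j h he) _ _ _ (fun i => mon (Chart.crd x) (e i)) (crd_vaff e x j h he)]
  unfold Lm lam
  congr 1
  refine Finset.sum_congr rfl fun w _ => ?_
  rw [sn_mon, Real.log_pow]
  congr 3
  unfold V val
  rw [← Equiv.sum_comp e]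
  rfl

end chart

end Pool.Agent.PC
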