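import Pool.Agent.Helper64.PC.Core
import Pool.Agent.Helper77.PC.Sit
import Pool.Agent.Helper64.FIN.Init1
import Pool.Agent.Helper77.AU.Glue
import Pool.Agent.Helper36.GS.Glue

/-!
# PC: from the core to the inequality, for linear forms in affine coordinates
-/

set_option autoImplicit false

namespace Pool.Agent.PC

open NumberField IntermediateField Pool.Agent.Helper64.Vojta Pool.Agent.GS MvPolynomial Filter
open Pool.Agent.Helper77.AU Pool.Agent.FIN

universe u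

/-- no situation with algebraically independent coefficients -/
theorem no_sit {k₀ : Type u} [Field k₀] {N q d : ℕ} (hq0 : 0 < q)
    (I : Set (MvPolynomial (Fin (N + 1)) k₀)) (hcore : LCore I q d) (s : Sit I q d) :
    ¬ AlgebraicIndependent k₀ s.co := by
  intro hind
  obtain ⟨F, κ, _, _, _, _, _, _, hT1, hT2, hF, htr, hab, hrank⟩ := init1 s.D s.ℓ s.s0 s.X s.hU s.hrk
  let alg0F : Algebra k₀ F := ((algebraMap s.K F).comp (algebraMap k₀ s.K)).toAlgebra
  have t0F : IsScalarTower k₀ s.K F := IsScalarTower.of_algebraMap_eq fun x => rfl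
  let alg0κ : Algebra k₀ κ := ((algebraMap F κ).comp (algebraMap k₀ F)).toAlgebra
  have t0κ : IsScalarTower k₀ F κ := IsScalarTower.of_algebraMap_eq fun x => rfl
  have huu : (uu (fun i j => algebraMap s.K F (s.ℓ i j)) fun σ j => algebraMap s.Ω κ (s.X σ j)) =
      fun i => algebraMap s.Ω κ (uu s.ℓ s.X i) := by
    funext i
    unfold uu
    rw [map_prod]
    refine Finset.prod_congr rfl fun σ _ => ?_
    unfold lin
    rw [map_sum]
    refine Finset.sum_congr rfl fun j _ => ?_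
    rw [map_mul, ← IsScalarTower.algebraMap_apply s.K F κ, ← IsScalarTower.algebraMap_apply s.K s.Ω κ]
  have hne : ∀ i, uu s.ℓ s.X i ≠ 0 := by
    intro i h0
    refine (s.hU i ⟨0, hq0⟩).1 ?_
    rw [h0, zero_div]
  refine hcore F κ (fun i j => algebraMap s.K F (s.ℓ i j)) ?_ s.s0 (fun σ j => algebraMap s.Ω κ (s.X σ j)) ?_ ?_ hab ?_
  · exact hind.map' (f := IsScalarTower.toAlgHom k₀ s.K F) (algebraMap s.K F).injective
  · intro σ f hf
    have h1 := congrArg (algebraMap s.Ω κ) (s.hI σ f hf)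
    rw [map_zero, MvPolynomial.hom_eval₂] at h1
    rw [aeval_def]
    have h2 : algebraMap k₀ κ = (algebraMap s.Ω κ).comp ((algebraMap s.K s.Ω).comp (algebraMap k₀ s.K)) := by
      ext x
      show algebraMap F κ (algebraMap s.K F (algebraMap k₀ s.K x)) =
        algebraMap s.Ω κ (algebraMap s.K s.Ω (algebraMap k₀ s.K x))
      rw [← IsScalarTower.algebraMap_apply s.K F κ, ← IsScalarTower.algebraMap_apply s.K s.Ω κ]
    rw [h2]
    exact h1
  · intro i
    rw [huu]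
    intro h
    exact hne i ((map_eq_zero _).1 h)
  · rw [huu]
    exact hrank

/-- a failing inequality gives a situation -/
theorem sit_of {k₀ k : Type u} [Field k₀] [NumberField k₀] [Field k] [NumberField k] [Algebra k₀ k] {N q : ℕ}
    (hq0 : 0 < q) (d : ℕ) (I : Set (MvPolynomial (Fin (N + 1)) k₀)) (hI : Homog I)
    (ℓ : Fin q → Fin (N + 1) → k) (S : Finset (Pl k))
    (hno : ¬ ∃ δ : ℝ, 0 < δ ∧ ∃ C : ℝ, ∀ y : Fin N → AlgebraicClosure k,
      (∀ f ∈ I, aeval (Fin.cons 1 y : Fin (N + 1) → AlgebraicClosure k) f = 0) → VZ.dg y = d →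
      (∀ i, ∑ j, algebraMap k (VZ.fld y) (ℓ i j) * VZ.crd y j ≠ 0) →
      VZ.lam ℓ S y ≤ (q - δ) * VZ.hgt y + C) (Φ : MvPolynomial (Fin q × Fin (N + 1)) k₀)
    (hΦ : ∀ s : Sit I q d, aeval s.co Φ = 0) : aeval (fun p : Fin q × Fin (N + 1) => ℓ p.1 p.2) Φ = 0 := by
  classical
  push Not at hno
  obtain ⟨U, t, ht, D, y, X, s0, c, hyI, hyd, hc, hX0, hXf, hXU, hrk⟩ :=
    glue S d ℓ ⟨0, hq0⟩ (fun y => ∀ f ∈ I, aeval (Fin.cons 1 y : Fin (N + 1) → AlgebraicClosure k) f = 0) (by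
      intro δ C hδ
      obtain ⟨y, h1, h2, h3, h4⟩ := hno δ hδ C
      exact ⟨y, h1, h2, h3, h4⟩)
  let alg0 : Algebra k₀ (slowK (k := k) U t ht) :=
    ((algebraMap k (slowK (k := k) U t ht)).comp (algebraMap k₀ k)).toAlgebra
  let s : Sit I q d :=
    { K := slowK (k := k) U t ht
      Ω := SL.Om k U
      D := D
      ℓ := fun i j => algebraMap k (slowK (k := k) U t ht) (ℓ i j)
      X := X
      s0 := s0
      hU := fun i j => (hXU i).div (hXU j)
      hI := by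
        intro σ f hf
        obtain ⟨e, he⟩ := hI f hf
        have h1 : aeval (X σ) (MvPolynomial.map (algebraMap k₀ k) f) = 0 := by
          refine hXf σ e _ (he.map _) (Eventually.of_forall fun m => ?_)
          rw [aeval_map_algebraMap]
          exact hyI m f hf
        rw [aeval_def, eval₂_map] at h1
        exact h1
      hrk := hrk }
  have h1 := hΦ s
  have h2 : aeval s.co Φ = algebraMap k (slowK (k := k) U t ht) (aeval (fun p : Fin q × Fin (N + 1) => ℓ p.1 p.2) Φ) := by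
    rw [aeval_def, aeval_def, MvPolynomial.hom_eval₂]
    rfl
  rw [h2] at h1
  exact (map_eq_zero _).1 h1

theorem main_lin {k₀ : Type u} [Field k₀] [NumberField k₀] {N r q : ℕ} (hq0 : 0 < q)
    (I : Set (MvPolynomial (Fin (N + 1)) k₀)) (hI : Homog I) (hcore : ∀ d, 1 ≤ d → d ≤ r → LCore I q d) :
    ∃ Φ : MvPolynomial (Fin q × Fin (N + 1)) k₀, Φ ≠ 0 ∧
      ∀ (k : Type u) [Field k] [NumberField k] [Algebra k₀ k] (ℓ : Fin q → Fin (N + 1) → k),
        aeval (fun p : Fin q × Fin (N + 1) => ℓ p.1 p.2) Φ ≠ 0 → ∀ S : Finset (Pl k), ∃ δ : ℝ, 0 < δ ∧ ∃ C : ℝ,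
          ∀ y : Fin N → AlgebraicClosure k,
            (∀ f ∈ I, aeval (Fin.cons 1 y : Fin (N + 1) → AlgebraicClosure k) f = 0) → VZ.dg y ≤ r →
            (∀ i, ∑ j, algebraMap k (VZ.fld y) (ℓ i j) * VZ.crd y j ≠ 0) →
            VZ.lam ℓ S y ≤ (q - δ) * VZ.hgt y + C := by
  classical
  have hex : ∀ d : ℕ, ∃ Φ : MvPolynomial (Fin q × Fin (N + 1)) k₀, Φ ≠ 0 ∧ (1 ≤ d → d ≤ r →
      ∀ s : Sit I q d, aeval s.co Φ = 0) := by
    intro d
    by_cases hd : 1 ≤ d ∧ d ≤ r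
    · obtain ⟨Φ, h0, h⟩ := exists_phi I q d (no_sit hq0 I (hcore d hd.1 hd.2))
      exact ⟨Φ, h0, fun _ _ => h⟩
    · exact ⟨1, one_ne_zero, fun h1 h2 => absurd ⟨h1, h2⟩ hd⟩
  choose Φ hΦ0 hΦ using hex
  refine ⟨∏ d ∈ Finset.range (r + 1), Φ d, Finset.prod_ne_zero_iff.2 fun d _ => hΦ0 d, ?_⟩
  intro k _ _ _ ℓ hℓ S
  rw [map_prod, Finset.prod_ne_zero_iff] at hℓ
  have hdeg : ∀ d : ℕ, ∃ δ : ℝ, 0 < δ ∧ ∃ C : ℝ, 1 ≤ d → d ≤ r → ∀ y : Fin N → AlgebraicClosure k,
      (∀ f ∈ I, aeval (Fin.cons 1 y : Fin (N + 1) → AlgebraicClosure k) f = 0) → VZ.dg y = d →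
      (∀ i, ∑ j, algebraMap k (VZ.fld y) (ℓ i j) * VZ.crd y j ≠ 0) →
      VZ.lam ℓ S y ≤ (q - δ) * VZ.hgt y + C := by
    intro d
    by_cases hd : 1 ≤ d ∧ d ≤ r
    · by_contra hcon
      refine hℓ d (Finset.mem_range.2 (by omega)) (sit_of hq0 d I hI ℓ S ?_ (Φ d) (hΦ d hd.1 hd.2))
      rintro ⟨δ, hδ, C, h⟩
      exact hcon ⟨δ, hδ, C, fun _ _ => h⟩
    · exact ⟨1, one_pos, 0, fun h1 h2 => absurd ⟨h1, h2⟩ hd⟩
  choose δ hδ C hC using hdeg
  have hne : (Finset.range (r + 1)).Nonempty := ⟨0, Finset.mem_range.2 (by omega)⟩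
  refine ⟨(Finset.range (r + 1)).inf' hne δ, (Finset.lt_inf'_iff hne).2 fun d _ => hδ d,
    (Finset.range (r + 1)).sup' hne C, fun y hyI hyr hyD => ?_⟩
  have hmem : VZ.dg y ∈ Finset.range (r + 1) := Finset.mem_range.2 (by omega)
  have hfd : FiniteDimensional k (VZ.fld y) :=
    finiteDimensional_adjoin fun x _ => Algebra.IsIntegral.isIntegral x
  have hpos : 0 < VZ.dg y := Module.finrank_pos
  have h1 := hC (VZ.dg y) hpos hyr y hyI rfl hyD
  have h2 := Finset.inf'_le δ hmem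
  have h3 := Finset.le_sup' C hmem
  have h4 := hgt_nonneg y
  nlinarith

end Pool.Agent.PC
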