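import Pool.Agent.Helper64.PC.Lin
import Pool.Agent.Helper64.PC.Height

/-!
# PC: sections of degree `d`, projective coordinates
-/

set_option autoImplicit false

namespace Pool.Agent.PC

open NumberField IntermediateField Pool.Agent.Helper64.Vojta Pool.Agent.GS MvPolynomial

universe u

theorem exists_enum (N c : ℕ) : ∃ M : ℕ, ∀ j : Fin (N + 1), ∃ e : Fin (M + 1) ≃ Sym (Fin (N + 1)) (c + 1),
    e 0 = Sym.replicate (c + 1) j := by
  classical
  have hpos : 0 < Fintype.card (Sym (Fin (N + 1)) (c + 1)) :=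
    Fintype.card_pos_iff.2 ⟨Sym.replicate (c + 1) 0⟩
  obtain ⟨M, hM⟩ := Nat.exists_eq_succ_of_ne_zero hpos.ne'
  refine ⟨M, fun j => ?_⟩
  let e₀ : Fin (M + 1) ≃ Sym (Fin (N + 1)) (c + 1) := (Fintype.equivFinOfCardEq hM).symm
  refine ⟨(Equiv.swap 0 (e₀.symm (Sym.replicate (c + 1) j))).trans e₀, ?_⟩
  simp

theorem main {k₀ : Type u} [Field k₀] [NumberField k₀] {N n r q d : ℕ} (hd : 1 ≤ d) (hq0 : 0 < q)
    (hcore : ∀ r', 1 ≤ r' → r' ≤ r → Core.{u} N n q r' d)
    (I : Set (MvPolynomial (Fin (N + 1)) k₀)) (hI : Homog I) (hD : Dim k₀ I n) :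
    ∃ Φ : MvPolynomial (Fin q × Sym (Fin (N + 1)) d) k₀, Φ ≠ 0 ∧
      ∀ (k : Type u) [Field k] [NumberField k] [Algebra k₀ k] (g : Fin q → Sym (Fin (N + 1)) d → k),
        aeval (fun p : Fin q × Sym (Fin (N + 1)) d => g p.1 p.2) Φ ≠ 0 → ∀ S : Finset (Pl k),
          ∃ δ : ℝ, 0 < δ ∧ ∃ C : ℝ,
            ∀ x : Fin (N + 1) → AlgebraicClosure k, (∃ j, x j = 1) → (∀ f ∈ I, aeval x f = 0) → Chart.dg x ≤ r →
              (∀ i, val (g i) x ≠ 0) → ∑ ν ∈ S, ∑ i, lam (g i) ν x ≤ (q * d - δ) * Chart.hgt x + C := by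
  classical
  obtain ⟨c, rfl⟩ : ∃ c, d = c + 1 := ⟨d - 1, by omega⟩
  obtain ⟨M, hM⟩ := exists_enum N c
  choose e he using hM
  have hchar : CharZero k₀ := inferInstance
  choose Φ hΦ h using fun j : Fin (N + 1) => main_lin (r := r) hq0 (vI I (e j)) (homog_vI I hI (e j))
    (fun r' h1 h2 => core_vI hq0 (hcore r' h1 h2) I hI hD (e j))
  have hinj : ∀ j : Fin (N + 1), Function.Injective fun p : Fin q × Fin (M + 1) => (p.1, e j p.2) := by
    intro j p p' hp
    rw [Prod.mk.injEq] at hp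
    exact Prod.ext hp.1 ((e j).injective hp.2)
  refine ⟨∏ j, rename (fun p : Fin q × Fin (M + 1) => (p.1, e j p.2)) (Φ j),
    Finset.prod_ne_zero_iff.2 fun j _ h0 => hΦ j ?_, fun k _ _ _ g hg S => ?_⟩
  · rw [← map_zero (rename fun p : Fin q × Fin (M + 1) => (p.1, e j p.2))] at h0
    exact rename_injective _ (hinj j) h0
  · rw [map_prod, Finset.prod_ne_zero_iff] at hg
    have h1 : ∀ j : Fin (N + 1), ∃ δ : ℝ, 0 < δ ∧ ∃ C : ℝ,
        ∀ x : Fin (N + 1) → AlgebraicClosure k, x j = 1 → (∀ f ∈ I, aeval x f = 0) → Chart.dg x ≤ r →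
          (∀ i, val (g i) x ≠ 0) →
          ∑ ν ∈ S, ∑ i, lam (g i) ν x ≤ (q * (c + 1 : ℕ) - δ) * Chart.hgt x + C := by
      intro j
      have h2 := hg j (Finset.mem_univ j)
      rw [aeval_rename] at h2
      obtain ⟨δ, hδ, C, hC⟩ := h j k (fun i a => g i (e j a)) h2 S
      refine ⟨δ * (c + 1 : ℕ), by positivity, C, fun x hx hX hd hD => ?_⟩
      have h3 := hC (vaff (e j) x) ?_ ?_ ?_
      · rw [lam_vaff (e j) x j hx (he j), hgt_vaff (e j) x j hx (he j)] at h3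
        refine h3.trans (le_of_eq ?_)
        ring
      · rw [cons_vaff (e j) x j hx (he j)]
        exact onX_vI_of I hI (e j) x hX
      · rw [dg_vaff (e j) x j hx (he j)]
        exact hd
      · intro i h0
        exact hD i ((val_vaff (e j) x j hx (he j) (g i)).1 h0)
    choose δ hδ C hC using h1
    have hne : (Finset.univ : Finset (Fin (N + 1))).Nonempty := ⟨0, Finset.mem_univ 0⟩
    refine ⟨Finset.univ.inf' hne δ, (Finset.lt_inf'_iff hne).2 fun j _ => hδ j, Finset.univ.sup' hne C, ?_⟩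
    rintro x ⟨j, hj⟩ hX hd hDD
    refine (hC j x hj hX hd hDD).trans (add_le_add (mul_le_mul_of_nonneg_right ?_ ?_) (Finset.le_sup' C (Finset.mem_univ j)))
    · have := Finset.inf'_le δ (Finset.mem_univ j)
      linarith
    · unfold Chart.hgt
      exact div_nonneg (Height.logHeight_nonneg _) (Nat.cast_nonneg _)

end Pool.Agent.PC
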