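import Pool.Agent.Helper64.PC.Defs
import Pool.Agent.Helper64.GS.Scale
import Pool.Agent.Helper77.GS.Cl

/-!
# PC: the Veronese embedding

`vI I e`: equations of the image of `X` under the Veronese map of degree `c + 1`.
-/

set_option autoImplicit false

namespace Pool.Agent.PC

open Pool.Agent.GS MvPolynomial

universe u

section mon

variable {K : Type*} [CommMonoid K] {N d : ℕ}

theorem mon_cons (x : Fin (N + 1) → K) (a : Fin (N + 1)) (s : Sym (Fin (N + 1)) d) :
    mon x (a ::ₛ s) = x a * mon x s := by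
  unfold mon
  rw [Sym.coe_cons, Multiset.map_cons, Multiset.prod_cons]

theorem mon_replicate (x : Fin (N + 1) → K) (a : Fin (N + 1)) :
    mon x (Sym.replicate d a) = x a ^ d := by
  simp [mon, Sym.replicate]

theorem mon_mul (x y : Fin (N + 1) → K) (s : Sym (Fin (N + 1)) d) :
    mon (fun j => x j * y j) s = mon x s * mon y s := by
  simp [mon, Multiset.prod_map_mul]

theorem mon_pow (x : Fin (N + 1) → K) (m : ℕ) (s : Sym (Fin (N + 1)) d) :
    mon (fun j => x j ^ m) s = mon x s ^ m := by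
  unfold mon
  exact Multiset.prod_map_pow

theorem mon_const (a : K) (s : Sym (Fin (N + 1)) d) : mon (fun _ => a) s = a ^ d := by
  simp [mon]

theorem mon_map {L F : Type*} [CommMonoid L] [FunLike F K L] [MonoidHomClass F K L] (f : F) (x : Fin (N + 1) → K)
    (s : Sym (Fin (N + 1)) d) : f (mon x s) = mon (fun j => f (x j)) s := by
  unfold mon
  rw [map_multiset_prod, Multiset.map_map]
  rfl

end mon

variable {k : Type u} [Field k] {N M c : ℕ}

/-- Equations of the image of `X` under the Veronese map. -/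
def vI (I : Set (MvPolynomial (Fin (N + 1)) k)) (e : Fin (M + 1) ≃ Sym (Fin (N + 1)) (c + 1)) :
    Set (MvPolynomial (Fin (M + 1)) k) :=
  {F | ∃ (s : Sym (Fin (N + 1)) (c + 1)) (j : Fin (N + 1)),
    F = mon (fun l => X (e.symm (l ::ₛ Sym.replicate c j))) s -
      X (e.symm s) * X (e.symm (Sym.replicate (c + 1) j)) ^ c} ∪
  ({F | ∃ s : Sym (Fin (N + 1)) (c + 1), F = X (e.symm s) ^ (c + 1) -
      mon (fun l => X (e.symm (Sym.replicate (c + 1) l))) s} ∪
  {F | ∃ f ∈ I, ∃ j : Fin (N + 1), F = rename (fun l => e.symm (l ::ₛ Sym.replicate c j)) f})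

theorem homog_mon {d M : ℕ} (z : Fin (N + 1) → MvPolynomial (Fin (M + 1)) k) (hz : ∀ l, (z l).IsHomogeneous 1)
    (s : Sym (Fin (N + 1)) d) : (mon z s).IsHomogeneous d := by
  induction d with
  | zero =>
    have : mon z s = 1 := by simp [mon, Sym.eq_nil_of_card_zero s]
    rw [this]
    exact isHomogeneous_one _ _
  | succ d ih =>
    obtain ⟨a, s', rfl⟩ := s.exists_eq_cons_of_succ
    rw [mon_cons, Nat.add_comm d 1]
    exact (hz a).mul (ih s')

theorem homog_vI (I : Set (MvPolynomial (Fin (N + 1)) k)) (hI : Homog I)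
    (e : Fin (M + 1) ≃ Sym (Fin (N + 1)) (c + 1)) : Homog (vI I e) := by
  rintro F (⟨s, j, rfl⟩ | ⟨s, rfl⟩ | ⟨f, hf, j, rfl⟩)
  · refine ⟨c + 1, ((homog_mon _ (fun l => isHomogeneous_X _ _) s)).sub ?_⟩
    have h1 : (X (e.symm (Sym.replicate (c + 1) j)) ^ c : MvPolynomial (Fin (M + 1)) k).IsHomogeneous (1 * c) :=
      (isHomogeneous_X _ _).pow c
    rw [one_mul] at h1
    have h2 := (isHomogeneous_X k (e.symm s)).mul h1
    rwa [Nat.add_comm 1 c] at h2
  · refine ⟨c + 1, IsHomogeneous.sub ?_ (homog_mon _ (fun l => isHomogeneous_X _ _) s)⟩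
    have h1 : (X (e.symm s) ^ (c + 1) : MvPolynomial (Fin (M + 1)) k).IsHomogeneous (1 * (c + 1)) :=
      (isHomogeneous_X _ _).pow (c + 1)
    rwa [one_mul] at h1
  · obtain ⟨d, hd⟩ := hI f hf
    exact ⟨d, hd.rename_isHomogeneous⟩

variable {K : Type u} [Field K] [Algebra k K]

theorem onX_vI_of (I : Set (MvPolynomial (Fin (N + 1)) k)) (hI : Homog I)
    (e : Fin (M + 1) ≃ Sym (Fin (N + 1)) (c + 1)) (x : Fin (N + 1) → K) (hx : OnX I x) :
    OnX (vI I e) (fun i => mon x (e i)) := by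
  rintro F (⟨s, j, rfl⟩ | ⟨s, rfl⟩ | ⟨f, hf, j, rfl⟩)
  · rw [map_sub, map_mul, map_pow, mon_map]
    simp only [aeval_X, Equiv.apply_symm_apply, mon_cons, mon_replicate]
    rw [mon_mul, mon_const, sub_eq_zero, ← pow_mul, ← pow_mul, mul_comm c (c + 1)]
  · rw [map_sub, map_pow, mon_map]
    simp only [aeval_X, Equiv.apply_symm_apply, mon_replicate]
    rw [mon_pow, sub_self]
  · rw [aeval_rename]
    have h1 : ((fun i => mon x (e i)) ∘ fun l => e.symm (l ::ₛ Sym.replicate c j)) = fun l => x j ^ c * x l := by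
      funext l
      simp only [Function.comp, Equiv.apply_symm_apply, mon_cons, mon_replicate]
      ring
    rw [h1]
    obtain ⟨d, hd⟩ := hI f hf
    rw [Pool.Agent.Helper64.GS.aeval_scale hd, hx f hf, mul_zero]

theorem onX_vI (I : Set (MvPolynomial (Fin (N + 1)) k)) (e : Fin (M + 1) ≃ Sym (Fin (N + 1)) (c + 1))
    (Z : Fin (M + 1) → K) (hZ : OnX (vI I e) Z) (hZ0 : Z ≠ 0) :
    ∃ (x : Fin (N + 1) → K) (a : K), a ≠ 0 ∧ OnX I x ∧ ∀ i, Z i = a * mon x (e i) := by
  classical
  set z : Sym (Fin (N + 1)) (c + 1) → K := fun s => Z (e.symm s) with hz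
  have hrel : ∀ s j, mon (fun l => z (l ::ₛ Sym.replicate c j)) s = z s * z (Sym.replicate (c + 1) j) ^ c := by
    intro s j
    have h1 := hZ _ (Or.inl ⟨s, j, rfl⟩)
    rw [map_sub, map_mul, map_pow, mon_map, sub_eq_zero] at h1
    simpa only [aeval_X] using h1
  have hj : ∃ j, z (Sym.replicate (c + 1) j) ≠ 0 := by
    by_contra hcon
    push Not at hcon
    refine hZ0 (funext fun i => ?_)
    have h1 := hZ _ (Or.inr (Or.inl ⟨e i, rfl⟩))
    rw [map_sub, map_pow, mon_map, sub_eq_zero] at h1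
    simp only [aeval_X, Equiv.symm_apply_apply] at h1
    have h2 : mon (fun j => Z (e.symm (Sym.replicate (c + 1) j))) (e i) = 0 := by
      obtain ⟨a, s', hs'⟩ := (e i).exists_eq_cons_of_succ
      rw [hs', mon_cons]
      have h3 : Z (e.symm (Sym.replicate (c + 1) a)) = 0 := hcon a
      rw [h3, zero_mul]
    rw [h2] at h1
    exact pow_eq_zero_iff (Nat.succ_ne_zero c) |>.1 h1
  obtain ⟨j, hj⟩ := hj
  refine ⟨fun l => z (l ::ₛ Sym.replicate c j), (z (Sym.replicate (c + 1) j) ^ c)⁻¹, inv_ne_zero (pow_ne_zero _ hj), ?_, ?_⟩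
  · intro f hf
    have h1 := hZ _ (Or.inr (Or.inr ⟨f, hf, j, rfl⟩))
    rw [aeval_rename] at h1
    exact h1
  · intro i
    rw [hrel]
    have : z (e i) = Z i := by simp [hz]
    rw [this]
    field_simp

end Pool.Agent.PC
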